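import Pool.Agent.TH744.SM4.Main

/-!
# Smoothability of closed topological 4-manifolds is undecidable (conditional on published facts)

The classical facts of 4-manifold topology (Freedman, Furuta, Wall) are fields of the structure
`TopManifolds`, Slobodskoi's theorem is the proposition `Slobodskoi`; they are assumed, not proved.

Let `G = ⟨x | R⟩` be a finitely presented group. For a word `u` let `p(u)` be the labelled
presentation `⟨x, s, t | R, [[u, s], t]⟩` in which only the last relator has label `1`, with `r`
relators, and let `Z` be the boundary of its 5-dimensional thickening with `w₂` given by the labels.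
The fundamental group of the frame bundle of `Z` is
`E = ⟨x, s, t, z | z² = 1, z central, R, [[u, s], t] = z⟩`. Let
`X = Z # (S² × S²) # 2k E₈`, `2k > r`; its Kirby-Siebenmann invariant is `0`.

If `u = 1` in `G` then `z = 1` in `E`, the universal cover of `Z` is not spin, and
`Z # (S² × S²) = Z # ℂP² # (-ℂP²)` (Wall); as `ℂP² # (-ℂP²) # 2k E₈ = (16k+1) ℂP² # (-ℂP²)`
(Freedman), `X` is smoothable.

If `u` survives in a finite quotient `Q` of `G` then `z` survives in a finite quotient of `E`: let
`E` act on the triples `(g, v, e)`, `g ∈ Q`, `v : Q → ℤ/2`, `e ∈ ℤ/2`, by `h (g, v, e) = (h g, v, e)`,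
`s (g, v, e) = (g, v + δ_g, e)`, `t (g, v, e) = (g, v, e + v(g))`, `z (g, v, e) = (g, v, e + 1)`.
So a covering `Z'` of `Z` with `d` sheets is spin, and the covering `X' = Z' # d (S² × S²) # 2kd E₈`
of `X` is spin with `σ = 16kd` and `b₂ ≤ 2rd + 2d + 16kd`. If `X` was smooth then Furuta's
10/8-theorem would give `b₂ ≥ 20kd + 2`, so `4kd + 2 ≤ 2(r+1)d`, which contradicts `2k > r`.

So an algorithm for smoothability would separate the words that are trivial in `G` from the words
that survive in a finite quotient of `G`. By Slobodskoi's theorem (1981) such an algorithm does not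
exist for some `G`.

The encoding of words by `w₂` of the covers is the one of `MP_d40431_gt` (helper607, helper651).
-/

set_option autoImplicit false

namespace Pool.Agent.Results.MP_60462a_gt.NoAlgorithm

open Pool.Agent.TH744.SM4

/-- If some algorithm halts on every presentation of a closed connected oriented topological
4-manifold with vanishing Kirby-Siebenmann invariant and decides whether it is smoothable, then for
every finitely presented group an algorithm separates the trivial words from the words that survive
in a finite quotient. So by Slobodskoi's theorem there is no algorithm for smoothability. -/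
theorem result (T : TopManifolds) :
    ((∃ A : ℕ →. Bool, Partrec A ∧ T.Decides A) →
      ∀ (m : ℕ) (R : Finset (FreeGroup (Fin m))), Separable R) ∧
    (Slobodskoi → ¬ ∃ A : ℕ →. Bool, Partrec A ∧ T.Decides A) := by
  refine ⟨?_, ?_⟩
  · rintro ⟨A, hA, H⟩ m R
    exact separable_of T A hA H R
  · rintro ⟨m, R, hR⟩ ⟨A, hA, H⟩
    exact hR (separable_of T A hA H R)

end Pool.Agent.Results.MP_60462a_gt.NoAlgorithm
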